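import Mathlib
import Pool.Agent.V1193.PE.J

set_option autoImplicit false

/-!
# Primes of the form `64 b ^ 2 + 9 = 8 d ^ 2 + 1`: a dichotomy for sets of indices

The solutions of `d ^ 2 - 8 b ^ 2 = 1` are `d_m + b_m √8 = (3 + √8) ^ m`.  With
`α = (3 + √8) ^ 2 = 17 + 12 √2` the number `8 d_m ^ 2 + 1` is `2 α ^ m + 2 α ^ (-m) + 5`, that is
`⌈2 α ^ m⌉ + 5`, for `m ≥ 1`.  For a real amplitude `β > 0` let `N β m = ⌈β α ^ m⌉ + 5` and let `E β`
be the set of the indices `m` with `N β m` prime.  So the question asks whether `E 2` is infinite.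

We prove, for every set `S` of indices: if `∑ 1 / m` over `S` converges then for almost every
amplitude only finitely many `m ∈ S` have `N β m` prime, and if it diverges then for almost every
amplitude infinitely many `m ∈ S` have `N β m` prime.  For example the index may run over the primes,
or over any set of positive density.
-/

namespace Pool.Agent.Results.MP_f53aaa_nt.Dichotomy

open Filter Topology MeasureTheory

/-- The solutions `(d, b)` of `d ^ 2 - 8 b ^ 2 = 1`: `d + b √8 = (3 + √8) ^ m`. -/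
def sol : ℕ → ℕ × ℕ
  | 0 => (1, 0)
  | (m + 1) => (3 * (sol m).1 + 8 * (sol m).2, (sol m).1 + 3 * (sol m).2)

/-- The number `17 + 12 √2`. -/
noncomputable def α : ℝ := (3 + Real.sqrt 8) ^ 2

/-- The smallest integer that is at least `β α ^ m`, plus `5`. -/
noncomputable def N (β : ℝ) (m : ℕ) : ℕ := ⌈β * α ^ m⌉₊ + 5

/-- The indices of the prime values. -/
def E (β : ℝ) : Set ℕ := {m | (N β m).Prime}

/-- **Main theorem.** -/
theorem result :
    -- the values at the amplitude `2`, and the question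
    (∀ m : ℕ, 1 ≤ m → N 2 m = 8 * (sol m).1 ^ 2 + 1) ∧
    ({p : ℕ | p.Prime ∧ ∃ b d : ℤ, (p : ℤ) = 64 * b ^ 2 + 9 ∧ (p : ℤ) = 8 * d ^ 2 + 1}.Infinite ↔
      (E 2).Infinite) ∧
    -- the dichotomy
    (∀ S : Set ℕ, ∀ᵐ β : ℝ, 0 < β →
      ((S ∩ E β).Infinite ↔ ¬ Summable (S.indicator fun m : ℕ => 1 / (m : ℝ)))) ∧
    -- the index may be prime
    (∀ᵐ β : ℝ, 0 < β → {m : ℕ | m.Prime ∧ (N β m).Prime}.Infinite) := by
  have hsol : ∀ m, sol m = Pool.Agent.V1193.PE.sol m := by
    intro m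
    induction m with
    | zero => rfl
    | succ m ih =>
      show (3 * (sol m).1 + 8 * (sol m).2, (sol m).1 + 3 * (sol m).2) = _
      rw [ih]
      rfl
  have hdich : ∀ S : Set ℕ, ∀ᵐ β : ℝ, 0 < β →
      ((S ∩ E β).Infinite ↔ ¬ Summable (S.indicator fun m : ℕ => 1 / (m : ℝ))) := fun S =>
    Pool.Agent.V1193.PE.dichotomy Pool.Agent.V1193.PE.α0_gt Pool.Agent.V1193.PE.dio0 5 S
  refine ⟨fun m hm => ?_, Pool.Agent.V1193.PE.question, hdich, ?_⟩
  · rw [hsol]
    exact Pool.Agent.V1193.PE.value m hm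
  · filter_upwards [hdich {p | p.Prime}] with β hβ h0
    have h1 := (hβ h0).2 not_summable_one_div_on_primes
    exact h1

end Pool.Agent.Results.MP_f53aaa_nt.Dichotomy
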