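import Mathlib
import Pool.Agent.V1193.PE.R
import Pool.Agent.H295R3.Hoheisel

set_option autoImplicit false

/-!
# Primes of the form `64 b ^ 2 + 9 = 8 d ^ 2 + 1`: how often the values are prime

The solutions of `d ^ 2 - 8 b ^ 2 = 1` are `d_m + b_m √8 = (3 + √8) ^ m`.  With
`α = (3 + √8) ^ 2 = 17 + 12 √2` the number `8 d_m ^ 2 + 1` is `2 α ^ m + 2 α ^ (-m) + 5`, that is
`⌈2 α ^ m⌉ + 5`, for `m ≥ 1`.  For a real amplitude `β > 0` let `N β m = ⌈β α ^ m⌉ + 5` and let `E β`
be the set of the indices `m` with `N β m` prime.  So the question asks whether `E 2` is infinite.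

We prove, with constants `c > 0` and `C` that do not depend on the amplitude: for almost every
amplitude, for ALL large `X` and all `Y ≥ X (log X) ^ C`, at least `c log (Y / X)` of the numbers
`N β m`, `X ≤ m ≤ Y`, are prime.  In particular at least `c' log X` of the numbers `N β m`, `m ≤ X`,
are prime, for all large `X`.

The proof.  Primes in short intervals (a positive proportion, Hoheisel's theorem of the starting
library) and the pair sieve in windows of length `α ^ (- κ M)` show that, given the first digits of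
`log β`, a block `[M, 2 M)` of indices contains a prime value with probability at least `q > 0`.  The
blocks `[D R ^ j, 2 D R ^ j)` depend on disjoint groups of digits up to negligible sets, so that the
number of successes in a run of blocks obeys a large deviation estimate.
-/

namespace Pool.Agent.Results.MP_f53aaa_nt.Growth

open Filter Topology MeasureTheory

/-- The solutions `(d, b)` of `d ^ 2 - 8 b ^ 2 = 1`: `d + b √8 = (3 + √8) ^ m`. -/
def sol : ℕ → ℕ × ℕ
  | 0 => (1, 0)
  | (m + 1) => (3 * (sol m).1 + 8 * (sol m).2, (sol m).1 + 3 * (sol m).2)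

/-- The number `17 + 12 √2`. -/
noncomputable def α : ℝ := (3 + Real.sqrt 8) ^ 2

/-- The smallest integer that is at least `β α ^ m`, plus `5`. -/
noncomputable def N (β : ℝ) (m : ℕ) : ℕ := ⌈β * α ^ m⌉₊ + 5

/-- The indices of the prime values. -/
def E (β : ℝ) : Set ℕ := {m | (N β m).Prime}

/-- **Main theorem.** -/
theorem result :
    -- the values at the amplitude `2`, and the question
    (∀ m : ℕ, 1 ≤ m → N 2 m = 8 * (sol m).1 ^ 2 + 1) ∧
    ({p : ℕ | p.Prime ∧ ∃ b d : ℤ, (p : ℤ) = 64 * b ^ 2 + 9 ∧ (p : ℤ) = 8 * d ^ 2 + 1}.Infinite ↔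
      (E 2).Infinite) ∧
    -- the number of prime values in all intervals `[X, Y]` with `Y ≥ X (log X) ^ C`
    (∃ (c : ℝ) (C : ℕ), 0 < c ∧ ∀ᵐ β : ℝ, 0 < β → ∀ᶠ X : ℕ in atTop, ∀ Y : ℕ,
      (X : ℝ) * Real.log X ^ C ≤ Y →
      c * Real.log ((Y : ℝ) / X) ≤ ((E β ∩ Set.Icc X Y).ncard : ℝ)) ∧
    -- the number of prime values up to `X`
    (∃ c : ℝ, 0 < c ∧ ∀ᵐ β : ℝ, 0 < β → ∀ᶠ X : ℕ in atTop,
      c * Real.log X ≤ ((E β ∩ Set.Icc 1 X).ncard : ℝ)) := by
  have hsol : ∀ m, sol m = Pool.Agent.V1193.PE.sol m := by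
    intro m
    induction m with
    | zero => rfl
    | succ m ih =>
      show (3 * (sol m).1 + 8 * (sol m).2, (sol m).1 + 3 * (sol m).2) = _
      rw [ih]
      rfl
  refine ⟨fun m hm => ?_, Pool.Agent.V1193.PE.question,
    Pool.Agent.V1193.PE.spread Pool.Agent.V1193.PE.α0_gt Pool.Agent.V1193.PE.dio0
      Pool.Agent.H295R3.D.hoheisel 5,
    Pool.Agent.V1193.PE.dens Pool.Agent.V1193.PE.α0_gt Pool.Agent.V1193.PE.dio0
      Pool.Agent.H295R3.D.hoheisel 5⟩
  rw [hsol]
  exact Pool.Agent.V1193.PE.value m hm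

end Pool.Agent.Results.MP_f53aaa_nt.Growth
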