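import Mathlib
import Pool.Agent.V1193.PE.F

set_option autoImplicit false

/-!
# Primes of the form `64 b ^ 2 + 9 = 8 d ^ 2 + 1`: the law of the last index in a thin set

The solutions of `d ^ 2 - 8 b ^ 2 = 1` are `d_m + b_m √8 = (3 + √8) ^ m`.  With
`α = (3 + √8) ^ 2 = 17 + 12 √2` the number `8 d_m ^ 2 + 1` is `2 α ^ m + 2 α ^ (-m) + 5`, that is
`⌈2 α ^ m⌉ + 5`, for `m ≥ 1`.  For a real amplitude `β > 0` let `N β m = ⌈β α ^ m⌉ + 5` and let `E β`
be the set of the indices `m` with `N β m` prime (no small prime factors are removed here).  So the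
question asks whether `E 2` is infinite.

The base `α` is fixed and only `β` is random.  For every infinite set `S` of indices with
`∑ 1 / n < ∞` (the sum over `S`) we find the exact asymptotic law of the largest element of
`S ∩ E β`.
-/

namespace Pool.Agent.Results.MP_f53aaa_nt.LastIndex

open Filter Topology MeasureTheory

/-- The solutions `(d, b)` of `d ^ 2 - 8 b ^ 2 = 1`: `d + b √8 = (3 + √8) ^ m`. -/
def sol : ℕ → ℕ × ℕ
  | 0 => (1, 0)
  | (m + 1) => (3 * (sol m).1 + 8 * (sol m).2, (sol m).1 + 3 * (sol m).2)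

/-- The number `17 + 12 √2`. -/
noncomputable def α : ℝ := (3 + Real.sqrt 8) ^ 2

/-- The smallest integer that is at least `β α ^ m`, plus `5`. -/
noncomputable def N (β : ℝ) (m : ℕ) : ℕ := ⌈β * α ^ m⌉₊ + 5

/-- The indices of the prime values. -/
def E (β : ℝ) : Set ℕ := {m | (N β m).Prime}

/-- The weight `1 / n` on `S`. -/
noncomputable def w (S : Set ℕ) : ℕ → ℝ := S.indicator fun n : ℕ => 1 / (n : ℝ)

/-- The sum of the weights from `n` on. -/
noncomputable def tail (S : Set ℕ) (n : ℕ) : ℝ := ∑' k : ℕ, w S (n + k)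

/-- The laws for random sets `F y` of indices, `y` in the window `(u, v]`, with the constant `c`:
the measures of `n ∈ F`, of `n = max F` (as `n → ∞` in `S`), of `F` having an element `≥ n`, the mean
number of these elements, and the measure of `F` having two elements `≥ n`. -/
def Law (S : Set ℕ) (F : ℝ → Set ℕ) (u v c : ℝ) : Prop :=
  Tendsto (fun n : ℕ => volume.real {y ∈ Set.Ioc u v | n ∈ F y} / (1 / (n : ℝ)))
    (atTop ⊓ 𝓟 S) (𝓝 c) ∧
  Tendsto (fun n : ℕ => volume.real {y ∈ Set.Ioc u v | IsGreatest (F y) n} / (1 / (n : ℝ)))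
    (atTop ⊓ 𝓟 S) (𝓝 c) ∧
  Tendsto (fun n : ℕ => volume.real {y ∈ Set.Ioc u v | ∃ m ∈ F y, n ≤ m} / tail S n)
    atTop (𝓝 c) ∧
  Tendsto (fun n : ℕ => (∫ y in Set.Ioc u v, ((F y ∩ Set.Ici n).ncard : ℝ)) / tail S n)
    atTop (𝓝 c) ∧
  ∃ K : ℝ, ∀ᶠ n : ℕ in atTop,
    volume.real {y ∈ Set.Ioc u v | ∃ p ∈ F y, ∃ q ∈ F y, n ≤ p ∧ p < q} ≤ K * tail S n ^ 2

/-- **Main theorem.** -/
theorem result :
    -- the solutions, the values at the amplitude `2`, and the question
    (∀ m : ℕ, (sol m).1 ^ 2 = 8 * (sol m).2 ^ 2 + 1) ∧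
    (∀ m : ℕ, 1 ≤ m → N 2 m = 8 * (sol m).1 ^ 2 + 1) ∧
    ({p : ℕ | p.Prime ∧ ∃ b d : ℤ, (p : ℤ) = 64 * b ^ 2 + 9 ∧ (p : ℤ) = 8 * d ^ 2 + 1}.Infinite ↔
      (E 2).Infinite) ∧
    -- the laws of the last index
    (∀ S : Set ℕ, S.Infinite → Summable (w S) → ∀ u v : ℝ, u < v →
      Law S (fun y => S ∩ E (Real.exp y)) u v ((v - u) / Real.log α)) := by
  have hsol : ∀ m, sol m = Pool.Agent.V1193.PE.sol m := by
    intro m
    induction m with
    | zero => rfl
    | succ m ih =>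
      show (3 * (sol m).1 + 8 * (sol m).2, (sol m).1 + 3 * (sol m).2) = _
      rw [ih]
      rfl
  refine ⟨fun m => ?_, fun m hm => ?_, Pool.Agent.V1193.PE.question, fun S hinf hsum u v huv => ?_⟩
  · rw [hsol]
    exact Pool.Agent.V1193.PE.sol_eq m
  · rw [hsol]
    exact Pool.Agent.V1193.PE.value m hm
  · exact Pool.Agent.V1193.PE.law Pool.Agent.V1193.PE.α0_gt Pool.Agent.V1193.PE.dio0 5 huv hinf hsum

end Pool.Agent.Results.MP_f53aaa_nt.LastIndex
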