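import Mathlib
import Pool.Agent.V1193.PE.G

set_option autoImplicit false

/-!
# Primes of the form `64 b ^ 2 + 9 = 8 d ^ 2 + 1`: sparse sets of pairs of indices

The solutions of `d ^ 2 - 8 b ^ 2 = 1` are `d_m + b_m √8 = (3 + √8) ^ m`.  With
`α = (3 + √8) ^ 2 = 17 + 12 √2` the number `8 d_m ^ 2 + 1` is `2 α ^ m + 2 α ^ (-m) + 5`, that is
`⌈2 α ^ m⌉ + 5`, for `m ≥ 1`.  For a real amplitude `β > 0` let `N β m = ⌈β α ^ m⌉ + 5` and let `E β`
be the set of the indices `m` with `N β m` prime.  So the question asks whether `E 2` is infinite.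

For almost every amplitude `β` we prove that the set `E β` has only finitely many pairs in any given
set `D` of pairs `m < n` with `∑ 1 / (m n) < ∞` over `D`; that its large elements have no small gaps;
and that for every function `f` with `f m > m` only finitely many `m` have both `m` and `f m` in
`E β` (for example `f m = m + k` or `f m = 2 m`).
-/

namespace Pool.Agent.Results.MP_f53aaa_nt.SparsePairs

open Filter Topology MeasureTheory

/-- The solutions `(d, b)` of `d ^ 2 - 8 b ^ 2 = 1`: `d + b √8 = (3 + √8) ^ m`. -/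
def sol : ℕ → ℕ × ℕ
  | 0 => (1, 0)
  | (m + 1) => (3 * (sol m).1 + 8 * (sol m).2, (sol m).1 + 3 * (sol m).2)

/-- The number `17 + 12 √2`. -/
noncomputable def α : ℝ := (3 + Real.sqrt 8) ^ 2

/-- The smallest integer that is at least `β α ^ m`, plus `5`. -/
noncomputable def N (β : ℝ) (m : ℕ) : ℕ := ⌈β * α ^ m⌉₊ + 5

/-- The indices of the prime values. -/
def E (β : ℝ) : Set ℕ := {m | (N β m).Prime}

/-- **Main theorem.** -/
theorem result :
    -- the values at the amplitude `2`, and the question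
    (∀ m : ℕ, 1 ≤ m → N 2 m = 8 * (sol m).1 ^ 2 + 1) ∧
    ({p : ℕ | p.Prime ∧ ∃ b d : ℤ, (p : ℤ) = 64 * b ^ 2 + 9 ∧ (p : ℤ) = 8 * d ^ 2 + 1}.Infinite ↔
      (E 2).Infinite) ∧
    -- sparse sets of pairs
    (∀ D : Set (ℕ × ℕ), (∀ z ∈ D, 1 ≤ z.1 ∧ z.1 < z.2) →
      Summable (D.indicator fun z : ℕ × ℕ => 1 / ((z.1 : ℝ) * z.2)) →
      ∀ᵐ β : ℝ, 0 < β → {z | z ∈ D ∧ z.1 ∈ E β ∧ z.2 ∈ E β}.Finite) ∧
    -- gaps
    (∀ δ : ℝ, 0 < δ → ∀ᵐ β : ℝ, 0 < β → ∃ M : ℕ, ∀ m ∈ E β, ∀ n ∈ E β, M ≤ m → m < n →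
      (m : ℝ) / Real.log (m + 1) ^ (1 + δ) ≤ n - m) ∧
    -- given pairs
    (∀ f : ℕ → ℕ, (∀ m, m < f m) → ∀ᵐ β : ℝ, 0 < β → {m | m ∈ E β ∧ f m ∈ E β}.Finite) := by
  have hsol : ∀ m, sol m = Pool.Agent.V1193.PE.sol m := by
    intro m
    induction m with
    | zero => rfl
    | succ m ih =>
      show (3 * (sol m).1 + 8 * (sol m).2, (sol m).1 + 3 * (sol m).2) = _
      rw [ih]
      rfl
  refine ⟨fun m hm => ?_, Pool.Agent.V1193.PE.question, fun D hD hs =>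
    Pool.Agent.V1193.PE.sparse Pool.Agent.V1193.PE.α0_gt Pool.Agent.V1193.PE.dio0 5 hD hs,
    fun δ hδ => Pool.Agent.V1193.PE.gaps Pool.Agent.V1193.PE.α0_gt Pool.Agent.V1193.PE.dio0 5 hδ,
    fun f hf => Pool.Agent.V1193.PE.images Pool.Agent.V1193.PE.α0_gt Pool.Agent.V1193.PE.dio0 5 hf⟩
  rw [hsol]
  exact Pool.Agent.V1193.PE.value m hm

end Pool.Agent.Results.MP_f53aaa_nt.SparsePairs
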